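import Mathlib
import Pool.Agent.Helper669.UFinal

set_option autoImplicit false

/-!
# The master condition and families of functions with values in the target
-/

namespace Pool.Agent.Y582.HC

open Cardinal Pool.Agent.Helper669.Forcing Pool.Agent.Helper669.K Pool.Agent.Helper669.U

section master

variable {M : Type} [LinearOrder M] {k : M} {κ : Cardinal.{0}} {U : Ultrafilter (Set M)}
  {π : Set M → M → M}

theorem closed_aux' (h : HS M k κ U π) {cP : PC M k → M} (hcP : Function.Injective cP)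
    {cS : SC M k → M} (hcS : Function.Injective cS) (G : Set M → M → Set (RC M k cP))
    (hd : ∀ s a, Down (G s a))
    (hG : ∀ s : Set M, s.Countable → ∀ r : RC M k cP, ∃ r' ≤ r, ∃ a, r' ∈ G s a)
    (S : (ℕ → M) → Set M) (hS : ∀ x, (S x).Countable) :
    {X : Set M | ∀ x : ℕ → M, (∀ i, x i ∈ X) → ∀ (p : PC M k) (q : SC M k), cP p = x 0 →
      cS q = x 1 → ∃ (p' : PC M k) (q' : SC M k) (a : M), cP p' ∈ X ∧ cS q' ∈ X ∧ a ∈ X ∧
        p' ≤ p ∧ q'.q.Ext q.q ∧ (⟨p', q'⟩ : RC M k cP) ∈ G (S x) a} ∈ U := by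
  have key : ∀ x : ℕ → M, ∃ w1 w2 w3 : M, ∀ (p : PC M k) (q : SC M k), cP p = x 0 → cS q = x 1 →
      ∃ (p' : PC M k) (q' : SC M k), cP p' = w1 ∧ cS q' = w2 ∧
        p' ≤ p ∧ q'.q.Ext q.q ∧ (⟨p', q'⟩ : RC M k cP) ∈ G (S x) w3 := by
    intro x
    by_cases hx : ∃ (p : PC M k) (q : SC M k), cP p = x 0 ∧ cS q = x 1
    · obtain ⟨p, q, hp, hq⟩ := hx
      obtain ⟨r', hr', a, hr'G⟩ := hG (S x) (hS x) ⟨p, q⟩
      obtain ⟨q2, hq2, hle⟩ := RC.direct hr'
      refine ⟨cP r'.p, cS q2, a, fun p0 q0 hp0 hq0 => ?_⟩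
      have e1 : p0 = p := hcP (hp0.trans hp.symm)
      have e2 : q0 = q := hcS (hq0.trans hq.symm)
      subst e1
      subst e2
      exact ⟨r'.p, q2, rfl, rfl, hr'.1, hq2, hd _ _ _ hr'G _ hle⟩
    · exact ⟨x 0, x 0, x 0, fun p q hp hq => absurd ⟨p, q, hp, hq⟩ hx⟩
  choose w1 w2 w3 hw using key
  have hcard : #ℕ < κ := by
    rw [Cardinal.mk_nat]
    exact Cardinal.aleph0_lt_aleph_one.trans h.unc
  have hmem := h.norm' hcard (fun X x => w1 x ∈ X ∧ w2 x ∈ X ∧ w3 x ∈ X) (fun x => by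
    have h1 := h.fine (w1 x)
    have h2 := h.fine (w2 x)
    have h3 := h.fine (w3 x)
    filter_upwards [h1, h2, h3] with X a1 a2 a3
    exact ⟨a1, a2, a3⟩)
  filter_upwards [hmem] with X hX x hx p q hp hq
  obtain ⟨p', q', e1, e2, hle, hext, hG'⟩ := hw x p q hp hq
  obtain ⟨m1, m2, m3⟩ := hX x hx
  exact ⟨p', q', w3 x, by rw [e1]; exact m1, by rw [e2]; exact m2, m3, hle, hext, hG'⟩

theorem closed' (h : HS M k κ U π) {cP : PC M k → M} (hcP : Function.Injective cP)
    {cS : SC M k → M} (hcS : Function.Injective cS) (G : Set M → M → Set (RC M k cP))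
    (hd : ∀ s a, Down (G s a))
    (hG : ∀ s : Set M, s.Countable → ∀ r : RC M k cP, ∃ r' ≤ r, ∃ a, r' ∈ G s a) :
    {X : Set M | ∀ s ⊆ X, s.Countable → ∀ (p : PC M k) (q : SC M k), cP p ∈ X → cS q ∈ X →
      ∃ (p' : PC M k) (q' : SC M k) (a : M), cP p' ∈ X ∧ cS q' ∈ X ∧ a ∈ X ∧ p' ≤ p ∧
        q'.q.Ext q.q ∧ (⟨p', q'⟩ : RC M k cP) ∈ G s a} ∈ U := by
  have h1 := closed_aux' h hcP hcS G hd hG (fun _ => ∅) (fun _ => Set.countable_empty)
  have h2 := closed_aux' h hcP hcS G hd hG (fun x => Set.range fun n => x (n + 2))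
    (fun _ => Set.countable_range _)
  filter_upwards [h1, h2] with X hX1 hX2 s hsX hsc p q hp hq
  rcases Set.eq_empty_or_nonempty s with hs | hs
  · subst hs
    exact hX1 (fun n => if n = 0 then cP p else cS q) (fun i => by
      by_cases hi : i = 0
      · rw [if_pos hi]; exact hp
      · rw [if_neg hi]; exact hq) p q (by simp) (by simp)
  · obtain ⟨f, rfl⟩ := hsc.exists_eq_range hs
    exact hX2 (fun n => if n = 0 then cP p else if n = 1 then cS q else f (n - 2)) (fun i => by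
      by_cases hi : i = 0
      · rw [if_pos hi]; exact hp
      · rw [if_neg hi]
        by_cases hi1 : i = 1
        · rw [if_pos hi1]; exact hq
        · rw [if_neg hi1]
          exact hsX ⟨i - 2, rfl⟩) p q (by simp) (by simp)

/-- The master condition argument for a family of fewer than `κ` functions with values in `M`:
some `X` with `|X| = κ` is closed under all of them, and it meets `k` in an initial segment. -/
theorem key' (h : HS M k κ U π) {cP : PC M k → M} (hcP : Function.Injective cP)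
    (hlt : ∀ p, cP p < k) {cS : SC M k → M} (hcS : Function.Injective cS)
    {I : Type} (hI : #I < κ)
    (G : I → Set M → M → Set (RC M k cP)) (hd : ∀ i s a, Down (G i s a))
    (hG : ∀ i, ∀ s : Set M, s.Countable → ∀ r : RC M k cP, ∃ r' ≤ r, ∃ a, r' ∈ G i s a)
    (Z : Set (Set M)) (hZ : Z ∈ U) (r0 : RC M k cP) :
    ∃ X ∈ Z, #X = κ ∧ ∃ r ≤ r0, ∃ α < k, X ∩ Set.Iio k = Set.Iio α ∧
      ∀ i, ∀ s ⊆ X, s.Countable → ∀ r' ≤ r, ∃ r'' ≤ r', ∃ a ∈ X, r'' ∈ G i s a := by
  classical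
  have hclosed := h.comp I hI
    (fun i => {X : Set M | ∀ s ⊆ X, s.Countable → ∀ (p : PC M k) (q : SC M k), cP p ∈ X →
      cS q ∈ X → ∃ (p' : PC M k) (q' : SC M k) (a : M), cP p' ∈ X ∧ cS q' ∈ X ∧ a ∈ X ∧ p' ≤ p ∧
        q'.q.Ext q.q ∧ (⟨p', q'⟩ : RC M k cP) ∈ G i s a})
    (fun i => closed' h hcP hcS (G i) (hd i) (hG i))
  obtain ⟨X, hX⟩ := Ultrafilter.nonempty_of_mem (f := U) (s :=
    Z ∩ ({X : Set M | ∃ α, IsAl k π X α} ∩
    ({X : Set M | ∀ α, IsAl k π X α → ∀ p : PC M k, cP p ∈ X ↔ Bdd p α} ∩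
    ({X : Set M | ∀ q q' : SC M k, cS q ∈ X → cS q' ∈ X →
      (pull k (π X) q.q).Comp (pull k (π X) q'.q) → q.q.Comp q'.q} ∩
    ({X : Set M | ∀ α, IsAl k π X α → ∀ q' : Sl M, IsSil α (Set.Iio k) q' →
      ∃ q : SC M k, cS q ∈ X ∧ pull k (π X) q.q = q'} ∩
    ({X : Set M | ∀ α, IsAl k π X α → ∀ q : SC M k, cS q ∈ X →
      IsSil α (Set.Iio k) (pull k (π X) q.q)} ∩
    ({X : Set M | ∀ i, X ∈ {X : Set M | ∀ s ⊆ X, s.Countable → ∀ (p : PC M k) (q : SC M k),
      cP p ∈ X → cS q ∈ X →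
      ∃ (p' : PC M k) (q' : SC M k) (a : M), cP p' ∈ X ∧ cS q' ∈ X ∧ a ∈ X ∧ p' ≤ p ∧
        q'.q.Ext q.q ∧ (⟨p', q'⟩ : RC M k cP) ∈ G i s a}} ∩
    ({X : Set M | ∀ α, IsAl k π X α → ∀ q : SC M k, cS q ∈ X → ∀ t ∈ q.q.D, t.2 < α} ∩
    ({X : Set M | cP r0.p ∈ X} ∩ {X : Set M | cS r0.q ∈ X})))))))))
    (Filter.inter_mem hZ (Filter.inter_mem h.isAl (Filter.inter_mem (h.cP_iff hcP hlt)
      (Filter.inter_mem (h.comp_of_pull hcS) (Filter.inter_mem (h.exists_pull hcS)
      (Filter.inter_mem (h.isSil_pull hcS) (Filter.inter_mem hclosed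
      (Filter.inter_mem (h.heights hcS) (Filter.inter_mem (h.fine _) (h.fine _))))))))))
  obtain ⟨hXZ, ⟨α, hα⟩, hXP, hXc, hXe, hXs, hXG, hXh, hX1, hX2⟩ := hX
  have hXP := hXP α hα
  have hXe := hXe α hα
  have hXs := hXs α hα
  have hXh := hXh α hα
  have hX1 : cP r0.p ∈ X := hX1
  have hX2 : cS r0.q ∈ X := hX2
  have hXc : ∀ q q' : SC M k, cS q ∈ X → cS q' ∈ X →
      (pull k (π X) q.q).Comp (pull k (π X) q'.q) → q.q.Comp q'.q := hXc
  have hb0 : Bdd r0.p α := (hXP _).1 hX1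
  -- the first coordinate of the master condition
  let ps : PC M k :=
    { f := fun β => if β = α then pull k (π X) r0.q.q else r0.p.f β
      cnt := by
        refine (r0.p.cnt.insert α).mono ?_
        intro β hβ
        by_cases hβα : β = α
        · exact Or.inl hβα
        · simp only [Set.mem_ofPred_eq, if_neg hβα] at hβ
          exact Or.inr hβ
      ok := by
        intro β hβ
        by_cases hβα : β = α
        · subst hβα
          simp only [if_pos rfl]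
          exact ⟨hα.lt, hα.good, hXs _ hX2⟩
        · simp only [if_neg hβα] at hβ ⊢
          exact r0.p.ok β hβ }
  have hps : ps.f α = pull k (π X) r0.q.q := if_pos rfl
  have hpsle : ps ≤ r0.p := by
    intro β
    by_cases hβα : β = α
    · subst hβα
      exact Sl.ext_of_empty (hb0.empty le_rfl)
    · show (if β = α then pull k (π X) r0.q.q else r0.p.f β).Ext _
      rw [if_neg hβα]
      exact Sl.Ext.refl _
  let qs : SC M k := ⟨master k (π X) cP cS X α, h.isSil_master hα hlt hcS hXh⟩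
  refine ⟨X, hXZ, ?_, ⟨ps, qs⟩, ⟨hpsle, ?_⟩, α, hα.lt, hα.seg, ?_⟩
  · rw [hα.mk_eq, h.mk_k]
  · intro t ht
    refine ⟨⟨r0.q, hX2, ht⟩, fun η p hp => master_iff hcP hXc hX2 ?_ ht η⟩
    have h1 := hp α
    rw [show (⟨ps, qs⟩ : RC M k cP).p.f α = pull k (π X) r0.q.q from hps] at h1
    exact h1
  · intro i s hs hsc r' hr'
    obtain ⟨q1, hq1X, hq1⟩ := hXe (r'.p.f α) (r'.p.isSil hα.good)
    have hp1X : cP (r'.p.restr α) ∈ X := (hXP _).2 (r'.p.bdd_restr α)
    obtain ⟨p2, q2, a, hp2X, hq2X, haX, hp21, hq21, hG2⟩ := hXG i s hs hsc _ q1 hp1X hq1X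
    have hb2 : Bdd p2 α := (hXP _).1 hp2X
    -- compatibility of the coordinates
    have hcomp : ∀ β, β ≠ α → (r'.p.f β).Comp (p2.f β) := by
      intro β hβα t ht ht2 u
      have hβ : β < α := (hb2 β t ht2).1
      have htα : t.1 < α := (hb2 β t ht2).2
      have h1 := hp21 β
      have h2 : (r'.p.restr α).f β = (r'.p.f β).restr α := if_pos hβ
      rw [h2] at h1
      have h3 := h1.2 t ⟨ht, htα⟩ u
      rw [h3]
      exact ⟨fun h => ⟨h, htα⟩, fun h => h.1⟩
    let p' : PC M k :=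
      { f := fun β => if β = α then pull k (π X) q2.q else (r'.p.f β).union (p2.f β)
        cnt := by
          refine ((r'.p.cnt.union p2.cnt).insert α).mono ?_
          intro β hβ
          by_cases hβα : β = α
          · exact Or.inl hβα
          · simp only [Set.mem_ofPred_eq, if_neg hβα] at hβ
            obtain ⟨t, ht | ht⟩ := hβ
            · exact Or.inr (Or.inl ⟨t, ht⟩)
            · exact Or.inr (Or.inr ⟨t, ht⟩)
        ok := by
          intro β hβ
          by_cases hβα : β = α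
          · subst hβα
            simp only [if_pos rfl]
            exact ⟨hα.lt, hα.good, hXs _ hq2X⟩
          · simp only [if_neg hβα] at hβ ⊢
            have h1 : β < k ∧ Good β := by
              obtain ⟨t, ht | ht⟩ := hβ
              · exact ⟨(r'.p.ok β ⟨t, ht⟩).1, (r'.p.ok β ⟨t, ht⟩).2.1⟩
              · exact ⟨(p2.ok β ⟨t, ht⟩).1, (p2.ok β ⟨t, ht⟩).2.1⟩
            exact ⟨h1.1, h1.2, IsSil.union h1.2.1.le (r'.p.isSil h1.2) (p2.isSil h1.2)⟩ }
    have hp'α : p'.f α = pull k (π X) q2.q := if_pos rfl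
    have hp'r : p' ≤ r'.p := by
      intro β
      by_cases hβα : β = α
      · subst hβα
        rw [hp'α, ← hq1]
        exact pull_ext hq21
      · show (if β = α then pull k (π X) q2.q else (r'.p.f β).union (p2.f β)).Ext _
        rw [if_neg hβα]
        exact Sl.union_ext_left (hcomp β hβα)
    have hp'2 : p' ≤ p2 := by
      intro β
      by_cases hβα : β = α
      · subst hβα
        exact Sl.ext_of_empty (hb2.empty le_rfl)
      · show (if β = α then pull k (π X) q2.q else (r'.p.f β).union (p2.f β)).Ext _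
        rw [if_neg hβα]
        exact Sl.union_ext_right (hcomp β hβα)
    refine ⟨⟨p', r'.q⟩, ⟨hp'r, fun t ht => ⟨ht, fun _ _ _ => Iff.rfl⟩⟩, a, haX, ?_⟩
    refine hd i s a _ hG2 _ ⟨hp'2, fun t ht => ?_⟩
    have htm : t ∈ qs.q.D := ⟨q2, hq2X, ht⟩
    obtain ⟨h1, h2⟩ := hr'.2 t htm
    refine ⟨h1, fun η p hp => ?_⟩
    rw [h2 η p (hp.trans hp'r)]
    refine master_iff hcP hXc hq2X ?_ ht η
    have h3 := hp α
    rw [show (⟨p', r'.q⟩ : RC M k cP).p.f α = pull k (π X) q2.q from hp'α] at h3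
    exact h3

end master

end Pool.Agent.Y582.HC
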