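import Mathlib
import Pool.Agent.Y582.HC.Key

set_option autoImplicit false

/-!
# The infinitary Chang conjecture for `(ω₃, ω₂)` from a huge cardinal
-/

namespace Pool.Agent.Y582.HC

open Cardinal Pool.Agent.Helper669.Forcing Pool.Agent.Helper669.K Pool.Agent.Helper669.U

/-- The named subset `X` of `M` has the order type of `K`: it is the range of a strictly
increasing function from `K` to `M`. -/
def OrderCopy {P : Type} [Preorder P] {K M : Type} [LT K] [LT M] (X : M → Set P) : Set P :=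
  fex fun f : K → M → Set P => fand (IsFun f)
    (fand
      (fall fun x => fall fun x' => fall fun y => fall fun y' =>
        fimp (fand (fground (x < x')) (fand (meets (f x y)) (meets (f x' y'))))
          (fground (y < y')))
      (fall fun y => fand (fimp (meets (X y)) (fex fun x => meets (f x y)))
        (fall fun x => fimp (meets (f x y)) (meets (X y)))))

/-- The infinitary Chang conjecture: for all families `(c i)`, `i ∈ I`, of functions from the
countably infinite subsets of `M` to `M`, and `(d i)`, `i ∈ I`, of functions from the countably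
infinite subsets of `M` to `K`, there is `X ⊆ M` of the order type of `K` such that
`X ∩ {y : y < k} = {y : y < α}` for some `α < k`, the value of every `c i` at every countably
infinite subset of `X` is an element of `X`, and for some `b ∈ K` the values of all `d i` at the
countably infinite subsets of `X` are below `b`. -/
def ChangInf (P : Type) [Preorder P] (I K M : Type) [LT K] [LT M] (k : M) : Set P :=
  fall fun c : I → (M → Set P) → M → Set P => fall fun d : I → (M → Set P) → K → Set P =>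
    fimp (fand (fall fun i => IsDenumColouring (c i)) (fall fun i => IsDenumColouring (d i)))
      (fex fun X : M → Set P => fand (OrderCopy (K := K) X)
        (fand
          (fex fun α : M => fand (fground (α < k))
            (fall fun y : M =>
              fand (fimp (fand (meets (X y)) (fground (y < k))) (fground (y < α)))
                (fimp (fground (y < α)) (meets (X y)))))
          (fand
            (fall fun i => fall fun S : M → Set P => fimp (fand (IsDenum S) (Sub S X))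
              (fall fun y => fimp (meets (c i S y)) (meets (X y))))
            (fex fun b : K =>
              fall fun i => fall fun S : M → Set P => fimp (fand (IsDenum S) (Sub S X))
                (fall fun a => fimp (meets (d i S a)) (fground (a < b)))))))

theorem orderCopy_chk {Q : Type} [Preorder Q] {K M : Type} [LinearOrder K] [LinearOrder M]
    {X : Set M} (e : K ≃o X) (q : Q) : q ∈ OrderCopy (K := K) (chk (Q := Q) X) := by
  refine mem_fex.2 fun p2 _ => ⟨p2, le_rfl, fun x y => {_q | y = (e x).1}, ⟨?_, ?_⟩, ?_, ?_⟩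
  · intro x
    exact mem_fex.2 fun r' _ => ⟨r', le_rfl, (e x).1, meets_of_mem rfl⟩
  · intro x y y'
    refine mem_fimp.2 fun r' _ h => ⟨r', le_rfl, ?_⟩
    obtain ⟨_, _, t, ht, _⟩ := h.1 r' le_rfl
    obtain ⟨_, _, t', ht', _⟩ := h.2 r' le_rfl
    exact ht.trans ht'.symm
  · intro x x' y y'
    refine mem_fimp.2 fun r' _ h => ⟨r', le_rfl, ?_⟩
    obtain ⟨h0, h1, h2⟩ := h
    obtain ⟨_, _, t, ht, _⟩ := h1 r' le_rfl
    obtain ⟨_, _, t', ht', _⟩ := h2 r' le_rfl
    have ht1 : y = (e x).1 := ht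
    have ht2 : y' = (e x').1 := ht'
    show y < y'
    rw [ht1, ht2]
    exact e.strictMono h0
  · intro y
    refine ⟨mem_fimp.2 fun r' _ h => ⟨r', le_rfl, ?_⟩, fun x => mem_fimp.2 fun r' _ h =>
      ⟨r', le_rfl, ?_⟩⟩
    · have hy : y ∈ X := squareBracket_of_key_chk h
      exact mem_fex.2 fun r'' _ => ⟨r'', le_rfl, e.symm ⟨y, hy⟩, meets_of_mem (by simp)⟩
    · obtain ⟨_, _, t, ht, _⟩ := h r' le_rfl
      refine meets_of_mem ?_
      change y ∈ X
      have ht' : y = (e x).1 := ht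
      rw [ht']
      exact (e x).2

/-- values of a named colouring at the named countably infinite subsets of `X` -/
theorem val_of_closed {Q : Type} [Preorder Q] (hQ : DirClosed ℵ₁ Q) {M K : Type}
    {c : (M → Set Q) → K → Set Q} {p0 : Q} (hp0 : p0 ∈ IsDenumColouring c) {X : Set M} {r : Q}
    (hr : r ≤ p0) {φ : K → Prop}
    (hb : ∀ s ⊆ X, s.Countable → s.Infinite → ∀ r' ≤ r, ∃ r'' ≤ r', ∃ a, φ a ∧
      r'' ∈ meets (c (chk s) a))
    {S : M → Set Q} {r1 : Q} (hr1 : r1 ≤ r) (hS1 : r1 ∈ IsDenum S) (hS2 : r1 ∈ Sub S (chk X))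
    {y : K} (hm1 : r1 ∈ meets (c S y)) : φ y := by
  obtain ⟨r2, hr2, s, hs, hi, hs1, hs2⟩ := exists_denum hQ S r1 hS1
  have hr2r : r2 ≤ r := hr2.trans hr1
  have hr2p : r2 ≤ p0 := hr2r.trans hr
  have hsX : s ⊆ X := by
    intro y hy
    obtain ⟨r3, _, h3⟩ := mem_fimp.1 (hS2 y) r2 hr2 (hs1 y hy)
    exact squareBracket_of_key_chk h3
  obtain ⟨r3, hr3, _, _, hext⟩ := mem_fimp.1 (hp0 S) r2 hr2p (down_fex _ _ hS1 _ hr2)
  obtain ⟨r4, hr4, h4⟩ := mem_fimp.1 (hext (chk s)) r3 le_rfl ⟨by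
    intro y
    refine mem_fimp.2 fun r5 hr5 h5 => ⟨r5, le_rfl, ?_⟩
    by_cases hy : y ∈ s
    · exact meets_of_mem hy
    · exact absurd h5 (hs2 y hy r5 (hr5.trans hr3)), by
    intro y
    refine mem_fimp.2 fun r5 hr5 h5 => ⟨r5, le_rfl, ?_⟩
    exact down_meets _ _ (hs1 y (squareBracket_of_key_chk h5)) _ (hr5.trans hr3)⟩
  obtain ⟨r5, hr5, h5⟩ := mem_fimp.1 (h4 y) r4 le_rfl
    (down_meets _ _ hm1 _ (hr4.trans (hr3.trans hr2)))
  have hr5r2 : r5 ≤ r2 := hr5.trans (hr4.trans hr3)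
  obtain ⟨r6, hr6, a, haφ, h6⟩ := hb s hsX hs hi r5 (hr5r2.trans hr2r)
  have hr6p : r6 ≤ p0 := hr6.trans (hr5r2.trans hr2p)
  obtain ⟨r7, hr7, _, huniq, _⟩ := mem_fimp.1 (hp0 (chk s)) r6 hr6p (chk_denum hs hi r6)
  obtain ⟨_, _, heq⟩ := mem_fimp.1 (huniq a y) r7 le_rfl
    ⟨down_meets _ _ h6 _ hr7, down_meets _ _ h5 _ (hr7.trans hr6)⟩
  have heq' : a = y := heq
  rw [← heq']
  exact haφ

theorem changInf_of_key {Q : Type} [Preorder Q] (hQ : DirClosed ℵ₁ Q) {κ : Cardinal.{0}}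
    {M : Type} [LinearOrder M] {k : M} {I : Type} (ι : κ.ord.ToType ≃o Set.Iio k)
    (hkey : ∀ G : I ⊕ I → Set M → M → Set Q, (∀ i s a, Down (G i s a)) →
      (∀ i, ∀ s : Set M, s.Countable → ∀ r : Q, ∃ r' ≤ r, ∃ a, r' ∈ G i s a) →
      ∀ r0 : Q, ∃ X : Set M, Nonempty (κ.ord.ToType ≃o X) ∧ ∃ r ≤ r0, ∃ α < k,
        X ∩ Set.Iio k = Set.Iio α ∧
        ∀ i, ∀ s ⊆ X, s.Countable → ∀ r' ≤ r, ∃ r'' ≤ r', ∃ a ∈ X, r'' ∈ G i s a)
    (q : Q) : q ∈ ChangInf Q I κ.ord.ToType M k := by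
  classical
  intro c d
  refine mem_fimp.2 fun p0 _ hp0 => ?_
  obtain ⟨hc0, hd0⟩ := hp0
  let G : I ⊕ I → Set M → M → Set Q := fun j s a => {r | s.Infinite →
    ((∃ i, j = Sum.inl i ∧ r ∈ meets (c i (chk s) a)) ∨
     (∃ i, j = Sum.inr i ∧ ∃ a2, (ι a2).1 = a ∧ r ∈ meets (d i (chk s) a2)) ∨
      ∀ t ≤ r, ¬ t ≤ p0)}
  obtain ⟨X, ⟨e⟩, r, hr, α, hα, hseg, hb⟩ := hkey G (by
      intro i s a p hp q' hq' hinf
      rcases hp hinf with ⟨i', h0, h⟩ | ⟨i', h0, a2, h1, h2⟩ | h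
      · exact Or.inl ⟨i', h0, down_meets _ _ h _ hq'⟩
      · exact Or.inr (Or.inl ⟨i', h0, a2, h1, down_meets _ _ h2 _ hq'⟩)
      · exact Or.inr (Or.inr fun t ht => h t (ht.trans hq'))) (by
      intro j s hs r
      by_cases hi : s.Infinite
      · by_cases ht : ∃ t ≤ r, t ≤ p0
        · obtain ⟨t, htr, htp⟩ := ht
          rcases j with i | i
          · obtain ⟨r1, hr1, htot, _⟩ := mem_fimp.1 (hc0 i (chk s)) t htp (chk_denum hs hi t)
            obtain ⟨r2, hr2, a, ha⟩ := mem_fex.1 htot r1 le_rfl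
            exact ⟨r2, hr2.trans (hr1.trans htr), a, fun _ => Or.inl ⟨i, rfl, ha⟩⟩
          · obtain ⟨r1, hr1, htot, _⟩ := mem_fimp.1 (hd0 i (chk s)) t htp (chk_denum hs hi t)
            obtain ⟨r2, hr2, a, ha⟩ := mem_fex.1 htot r1 le_rfl
            exact ⟨r2, hr2.trans (hr1.trans htr), (ι a).1,
              fun _ => Or.inr (Or.inl ⟨i, rfl, a, rfl, ha⟩)⟩
        · push Not at ht
          exact ⟨r, le_rfl, k, fun _ => Or.inr (Or.inr ht)⟩
      · exact ⟨r, le_rfl, k, fun h => absurd h hi⟩) p0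
  refine ⟨r, hr, mem_fex.2 fun p1 hp1 => ⟨p1, le_rfl, chk X, orderCopy_chk e p1, ?_, ?_, ?_⟩⟩
  · refine mem_fex.2 fun p2 _ => ⟨p2, le_rfl, α, hα, fun y => ⟨?_, ?_⟩⟩
    · refine mem_fimp.2 fun r' _ h => ⟨r', le_rfl, ?_⟩
      have hy : y ∈ X := squareBracket_of_key_chk h.1
      have hyk : y < k := h.2
      have h3 : y ∈ X ∩ Set.Iio k := ⟨hy, hyk⟩
      rw [hseg] at h3
      exact h3
    · refine mem_fimp.2 fun r' _ h => ⟨r', le_rfl, meets_of_mem ?_⟩
      have hy : y < α := h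
      have h3 : y ∈ Set.Iio α := hy
      rw [← hseg] at h3
      exact h3.1
  · intro i S
    refine mem_fimp.2 fun r0 hr0 hS => ⟨r0, le_rfl, fun y => mem_fimp.2 fun r1 hr1 hm1 =>
      ⟨r1, le_rfl, ?_⟩⟩
    have hy : y ∈ X := by
      refine val_of_closed hQ (hc0 i) (X := X) hr (φ := fun a => a ∈ X) ?_
        (hr1.trans (hr0.trans hp1)) (down_fex _ _ hS.1 _ hr1) ?_ hm1
      · intro s hsX hs hi r' hr'
        obtain ⟨r'', hr'', a, haX, hG⟩ := hb (Sum.inl i) s hsX hs r' hr'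
        rcases hG hi with ⟨i', h0, h⟩ | ⟨i', h0, _⟩ | h
        · have h1 := Sum.inl_injective h0
          subst h1
          exact ⟨r'', hr'', a, haX, h⟩
        · exact absurd h0 (by simp)
        · exact absurd (hr''.trans (hr'.trans hr)) (h r'' le_rfl)
      · intro y'
        exact down_fimp _ _ _ (hS.2 y') _ hr1
    exact meets_of_mem hy
  · refine mem_fex.2 fun p2 hp2 => ⟨p2, le_rfl, ι.symm ⟨α, hα⟩, fun i S => mem_fimp.2
      fun r0 hr0 hS => ⟨r0, le_rfl, fun y => mem_fimp.2 fun r1 hr1 hm1 => ⟨r1, le_rfl, ?_⟩⟩⟩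
    refine mem_fground.2 ?_
    refine val_of_closed hQ (hd0 i) (X := X) hr (φ := fun a => a < ι.symm ⟨α, hα⟩) ?_
      (hr1.trans (hr0.trans (hp2.trans hp1))) (down_fex _ _ hS.1 _ hr1) ?_ hm1
    · intro s hsX hs hi r' hr'
      obtain ⟨r'', hr'', a, haX, hG⟩ := hb (Sum.inr i) s hsX hs r' hr'
      rcases hG hi with ⟨i', h0, _⟩ | ⟨i', h0, a2, ha2, h⟩ | h
      · exact absurd h0 (by simp)
      · have h1 := Sum.inr_injective h0
        subst h1
        refine ⟨r'', hr'', a2, ?_, h⟩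
        have h3 : (ι a2).1 ∈ X ∩ Set.Iio k := ⟨by rw [ha2]; exact haX, (ι a2).2⟩
        rw [hseg] at h3
        rw [OrderIso.lt_symm_apply, ← Subtype.coe_lt_coe]
        exact h3
      · exact absurd (hr''.trans (hr'.trans hr)) (h r'' le_rfl)
    · intro y'
      exact down_fimp _ _ _ (hS.2 y') _ hr1

/-- The forcing notion of `huge_iteration` forces the infinitary Chang conjecture. -/
theorem chang_iteration {κ m : Cardinal.{0}} (h : IsHuge κ m) :
    ∃ (P : Type) (_ : Preorder P) (k : m.ord.ToType), Nonempty P ∧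
      Nonempty (κ.ord.ToType ≃o Set.Iio k) ∧ ∀ p : P,
      p ∈ StaysRegular P ℵ₁ ∧ p ∈ StaysRegular P κ ∧ p ∈ StaysRegular P m ∧
      p ∈ CollapsedTo P ℵ₁ κ ∧ p ∈ CollapsedTo P κ m ∧ p ∈ ForcesCH P ∧
      p ∈ ChangInf P (ℵ₁ : Cardinal.{0}).ord.ToType κ.ord.ToType m.ord.ToType k := by
  classical
  obtain ⟨k, U, π, hs⟩ := IsHuge.hs h
  have hM : ∀ a : m.ord.ToType, #(Set.Iio a) < #m.ord.ToType := by
    intro a
    rw [mk_ord_toType]
    exact Cardinal.mk_Iio_toType_ord_lt a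
  obtain ⟨hreg, hstrong⟩ := hs.target hM
  obtain ⟨cP, hcP, hlt⟩ := hs.exists_cP
  obtain ⟨cS, hcS⟩ := exists_cS (k := k) hreg hstrong hM (by
    rw [hs.mk_k]
    exact hs.reg.aleph0_le)
  obtain ⟨ι⟩ := hs.iso
  have hne : Nonempty (RC m.ord.ToType k cP) := by
    have h0 : ∃ γ, γ < k := by
      have h1 : #(Set.Iio k) ≠ 0 := by
        rw [hs.mk_k]
        exact hs.reg.pos.ne'
      obtain ⟨γ⟩ := Cardinal.mk_ne_zero_iff.1 h1
      exact ⟨γ.1, γ.2⟩
    refine ⟨⟨⟨fun _ => Sl.empty, ?_, ?_⟩, ⟨Sl.empty, ⟨?_, ?_, ?_, ?_⟩⟩⟩⟩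
    · have : {α : m.ord.ToType | (Sl.empty : Sl m.ord.ToType).D.Nonempty} = ∅ := by
        ext α
        simp [Sl.empty]
      rw [this]
      exact Set.countable_empty
    · intro α hα
      exact absurd hα Set.not_nonempty_empty
    · simp [Sl.empty]
    · obtain ⟨γ, hγ⟩ := h0
      exact ⟨γ, hγ, fun t ht => ht.elim⟩
    · exact fun t ht => ht.elim
    · exact fun t s ht => ht.elim
  have hI : #((ℵ₁ : Cardinal.{0}).ord.ToType ⊕ (ℵ₁ : Cardinal.{0}).ord.ToType) < κ := by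
    rw [Cardinal.mk_sum, mk_ord_toType]
    simp only [Cardinal.lift_id]
    rw [Cardinal.add_eq_self aleph0_lt_aleph_one.le]
    exact hs.unc
  have hkey : ∀ G : (ℵ₁ : Cardinal.{0}).ord.ToType ⊕ (ℵ₁ : Cardinal.{0}).ord.ToType →
      Set m.ord.ToType → m.ord.ToType → Set (RC m.ord.ToType k cP), (∀ i s a, Down (G i s a)) →
      (∀ i, ∀ s : Set m.ord.ToType, s.Countable → ∀ r : RC m.ord.ToType k cP,
        ∃ r' ≤ r, ∃ a, r' ∈ G i s a) →
      ∀ r0 : RC m.ord.ToType k cP, ∃ X : Set m.ord.ToType, Nonempty (κ.ord.ToType ≃o X) ∧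
        ∃ r ≤ r0, ∃ α < k, X ∩ Set.Iio k = Set.Iio α ∧
        ∀ i, ∀ s ⊆ X, s.Countable → ∀ r' ≤ r, ∃ r'' ≤ r', ∃ a ∈ X, r'' ∈ G i s a := by
    intro G hd hG r0
    obtain ⟨X, hX, -, h2⟩ := key' hs hcP hlt hcS hI G hd hG _ hs.mono r0
    refine ⟨X, ?_, h2⟩
    obtain ⟨h3, h4⟩ := hX
    have e1 := StrictMonoOn.orderIso (π X) (Set.Iio k) h3
    rw [h4] at e1
    exact ⟨ι.trans e1⟩
  refine ⟨RC m.ord.ToType k cP, inferInstance, k, hne, ⟨ι⟩,
    fun p => ⟨?_, ?_, ?_, ?_, ?_, ?_, ?_⟩⟩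
  · exact staysRegular_proj isRegular_aleph_one
      (fun N D hN hd hdense q =>
        exists_forall_mem aleph0_lt_aleph_one.le (RC.dirClosed hs cP) hN D hd hdense q)
      id (fun a b h => h) (fun a q' h => ⟨q', h, le_rfl⟩) (fun q' => ⟨q', le_rfl⟩) p
  · refine staysRegular_of_key hs.reg hs.mk_k hs.mk_lt ι ?_ p
    intro G hd hG A hA r0
    have hZ : {X : Set m.ord.ToType | A ⊆ X} ∈ U := by
      have h1 := hs.comp A hA (fun a => {X | a.1 ∈ X}) (fun a => hs.fine a.1)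
      filter_upwards [h1] with X hX a ha
      exact hX ⟨a, ha⟩
    obtain ⟨X, h1, h2⟩ := hs.key hcP hlt hcS G hd hG _ hZ r0
    exact ⟨X, h1, h2⟩
  · refine staysRegular_of_cc' ?_ ?_ p
    · rw [mk_ord_toType] at hreg
      exact hreg
    · intro ι' f hf
      exact RC.cc hs hM hcP hlt hcS ι' f (by rw [mk_ord_toType]; exact hf)
  · exact RC.collapsed hs cP p
  · have h1 := RC.collapsed' hs hM cP hlt p
    rw [mk_ord_toType] at h1
    exact h1
  · exact RC.forcesCH hs cP p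
  · exact changInf_of_key (RC.dirClosed hs cP) ι hkey p

end Pool.Agent.Y582.HC
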