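import Mathlib
import Pool.Agent.Y582.HC.Final
import Pool.Agent.Helper669.KE

set_option autoImplicit false

/-!
# Colourings of the countable subsets of `(2 ^ ℵ₀)⁺⁺`
-/

namespace Pool.Agent.Y582.HC

open Cardinal Set Pool.Agent.Helper669.Forcing Pool.Agent.Helper669.K Pool.Agent.Helper669.U
  Pool.Agent.Helper669.KE

/-- For every family `(d i)`, `i ∈ I`, of colourings of the (finite or infinite) countable subsets
of `M` with the elements of `K` as colours there are one set `X ⊆ M` of the order type of `K` and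
one `b ∈ K` such that all the colours `d i s` of the countable subsets `s` of `X`, for all `i`,
are below `b`. -/
def BoundsColours (P : Type) [Preorder P] (I K M : Type) [LT K] [LT M] : Set P :=
  fall fun d : I → (M → Set P) → K → Set P => fimp (fall fun i => IsColouring (d i))
    (fex fun X : M → Set P => fand (OrderCopy (K := K) X)
      (fex fun b : K => fall fun i => fall fun S : M → Set P => fimp (fand (IsCtbl S) (Sub S X))
        (fall fun a => fimp (meets (d i S a)) (fground (a < b)))))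

/-- values of a named colouring at the named countable subsets of `X` -/
theorem val_of_closed_ctbl {Q : Type} [Preorder Q] (hQ : DirClosed ℵ₁ Q) {M K : Type} [Nonempty M]
    {c : (M → Set Q) → K → Set Q} {p0 : Q} (hp0 : p0 ∈ IsColouring c) {X : Set M} {r : Q}
    (hr : r ≤ p0) {φ : K → Prop}
    (hb : ∀ s ⊆ X, s.Countable → ∀ r' ≤ r, ∃ r'' ≤ r', ∃ a, φ a ∧
      r'' ∈ meets (c (chk s) a))
    {S : M → Set Q} {r1 : Q} (hr1 : r1 ≤ r) (hS1 : r1 ∈ IsCtbl S) (hS2 : r1 ∈ Sub S (chk X))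
    {y : K} (hm1 : r1 ∈ meets (c S y)) : φ y := by
  obtain ⟨r2, hr2, s, hs, hs1, hs2⟩ := exists_decided hQ S r1 hS1
  have hr2r : r2 ≤ r := hr2.trans hr1
  have hr2p : r2 ≤ p0 := hr2r.trans hr
  have hsX : s ⊆ X := by
    intro y hy
    obtain ⟨r3, _, h3⟩ := mem_fimp.1 (hS2 y) r2 hr2 (hs1 y hy)
    exact chk_of_meets h3
  obtain ⟨r3, hr3, _, _, hext⟩ := mem_fimp.1 (hp0 S) r2 hr2p (down_fex _ _ hS1 _ hr2)
  obtain ⟨r4, hr4, h4⟩ := mem_fimp.1 (hext (chk s)) r3 le_rfl ⟨by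
    intro y
    refine mem_fimp.2 fun r5 hr5 h5 => ⟨r5, le_rfl, ?_⟩
    by_cases hy : y ∈ s
    · exact meets_of_mem hy
    · exact absurd h5 (hs2 y hy r5 (hr5.trans hr3)), by
    intro y
    refine mem_fimp.2 fun r5 hr5 h5 => ⟨r5, le_rfl, ?_⟩
    exact down_meets _ _ (hs1 y (chk_of_meets h5)) _ (hr5.trans hr3)⟩
  obtain ⟨r5, hr5, h5⟩ := mem_fimp.1 (h4 y) r4 le_rfl
    (down_meets _ _ hm1 _ (hr4.trans (hr3.trans hr2)))
  have hr5r2 : r5 ≤ r2 := hr5.trans (hr4.trans hr3)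
  obtain ⟨r6, hr6, a, haφ, h6⟩ := hb s hsX hs r5 (hr5r2.trans hr2r)
  have hr6p : r6 ≤ p0 := hr6.trans (hr5r2.trans hr2p)
  obtain ⟨r7, hr7, _, huniq, _⟩ := mem_fimp.1 (hp0 (chk s)) r6 hr6p (chk_ctbl hs r6)
  obtain ⟨_, _, heq⟩ := mem_fimp.1 (huniq a y) r7 le_rfl
    ⟨down_meets _ _ h6 _ hr7, down_meets _ _ h5 _ (hr7.trans hr6)⟩
  have heq' : a = y := heq
  rw [← heq']
  exact haφ

theorem boundsColours_of_key {Q : Type} [Preorder Q] (hQ : DirClosed ℵ₁ Q) {κ : Cardinal.{0}}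
    {M : Type} [LinearOrder M] {k : M} {I : Type} (ι : κ.ord.ToType ≃o Set.Iio k)
    (hkey : ∀ G : I → Set M → M → Set Q, (∀ i s a, Down (G i s a)) →
      (∀ i, ∀ s : Set M, s.Countable → ∀ r : Q, ∃ r' ≤ r, ∃ a, r' ∈ G i s a) →
      ∀ r0 : Q, ∃ X : Set M, Nonempty (κ.ord.ToType ≃o X) ∧ ∃ r ≤ r0, ∃ α < k,
        X ∩ Set.Iio k = Set.Iio α ∧
        ∀ i, ∀ s ⊆ X, s.Countable → ∀ r' ≤ r, ∃ r'' ≤ r', ∃ a ∈ X, r'' ∈ G i s a)
    (q : Q) : q ∈ BoundsColours Q I κ.ord.ToType M := by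
  classical
  have hne : Nonempty M := ⟨k⟩
  intro d
  refine mem_fimp.2 fun p0 _ hd0 => ?_
  let G : I → Set M → M → Set Q := fun i s a => {r |
     (∃ a2, (ι a2).1 = a ∧ r ∈ meets (d i (chk s) a2)) ∨ ∀ t ≤ r, ¬ t ≤ p0}
  obtain ⟨X, ⟨e⟩, r, hr, α, hα, hseg, hb⟩ := hkey G (by
      intro i s a p hp q' hq'
      rcases hp with ⟨a2, h1, h2⟩ | h
      · exact Or.inl ⟨a2, h1, down_meets _ _ h2 _ hq'⟩
      · exact Or.inr fun t ht => h t (ht.trans hq')) (by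
      intro i s hs r
      by_cases ht : ∃ t ≤ r, t ≤ p0
      · obtain ⟨t, htr, htp⟩ := ht
        obtain ⟨r1, hr1, htot, _⟩ := mem_fimp.1 (hd0 i (chk s)) t htp (chk_ctbl hs t)
        obtain ⟨r2, hr2, a, ha⟩ := mem_fex.1 htot r1 le_rfl
        exact ⟨r2, hr2.trans (hr1.trans htr), (ι a).1, Or.inl ⟨a, rfl, ha⟩⟩
      · push Not at ht
        exact ⟨r, le_rfl, k, Or.inr ht⟩) p0
  refine ⟨r, hr, mem_fex.2 fun p1 hp1 => ⟨p1, le_rfl, chk X, orderCopy_chk e p1, ?_⟩⟩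
  refine mem_fex.2 fun p2 hp2 => ⟨p2, le_rfl, ι.symm ⟨α, hα⟩, fun i S => mem_fimp.2
      fun r0 hr0 hS => ⟨r0, le_rfl, fun y => mem_fimp.2 fun r1 hr1 hm1 => ⟨r1, le_rfl, ?_⟩⟩⟩
  refine mem_fground.2 ?_
  refine val_of_closed_ctbl hQ (hd0 i) (X := X) hr (φ := fun a => a < ι.symm ⟨α, hα⟩) ?_
    (hr1.trans (hr0.trans (hp2.trans hp1))) (down_fex _ _ hS.1 _ hr1) ?_ hm1
  · intro s hsX hs r' hr'
    obtain ⟨r'', hr'', a, haX, hG⟩ := hb i s hsX hs r' hr'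
    rcases hG with ⟨a2, ha2, h⟩ | h
    · refine ⟨r'', hr'', a2, ?_, h⟩
      have h3 : (ι a2).1 ∈ X ∩ Set.Iio k := ⟨by rw [ha2]; exact haX, (ι a2).2⟩
      rw [hseg] at h3
      rw [OrderIso.lt_symm_apply, ← Subtype.coe_lt_coe]
      exact h3
    · exact absurd (hr''.trans (hr'.trans hr)) (h r'' le_rfl)
  · intro y'
    exact down_fimp _ _ _ (hS.2 y') _ hr1

/-- A named set of the order type of `K` has the cardinality of `K`. -/
theorem sameSize_of_orderCopy {Q : Type} [Preorder Q] {K M : Type} [LinearOrder K] [LinearOrder M]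
    {X : M → Set Q} {q : Q} (h : q ∈ OrderCopy (K := K) X) : q ∈ SameSize (K := K) X := by
  refine mem_fex.2 fun r hr => ?_
  obtain ⟨r1, hr1, f, hf, hmono, hX⟩ := mem_fex.1 h r hr
  refine ⟨r1, hr1, f, hf, ?_, hX⟩
  intro x x' y
  refine mem_fimp.2 fun r2 hr2 h2 => ?_
  by_contra hcon
  rcases lt_trichotomy x x' with hlt | heq | hgt
  · obtain ⟨r3, _, h3⟩ := mem_fimp.1 (hmono x x' y y) r2 hr2 ⟨hlt, h2⟩
    exact absurd h3 (lt_irrefl y)
  · exact hcon ⟨r2, le_rfl, heq⟩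
  · obtain ⟨r3, _, h3⟩ := mem_fimp.1 (hmono x' x y y) r2 hr2 ⟨hgt, h2.2, h2.1⟩
    exact absurd h3 (lt_irrefl y)

theorem missesColour_of_bounds {Q : Type} [Preorder Q] {I K M : Type} [Nonempty I] [LinearOrder K]
    [LinearOrder M] {q : Q} (h : q ∈ BoundsColours Q I K M) : q ∈ MissesColour Q K M := by
  intro c
  refine mem_fimp.2 fun p hp hc => ?_
  obtain ⟨r, hr, h1⟩ := mem_fimp.1 (h fun _ => c) p hp fun _ => hc
  refine ⟨r, hr, mem_fex.2 fun r1 hr1 => ?_⟩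
  obtain ⟨r2, hr2, X, hX, h2⟩ := mem_fex.1 h1 r1 hr1
  refine ⟨r2, hr2, X, sameSize_of_orderCopy hX, mem_fex.2 fun r3 hr3 => ?_⟩
  obtain ⟨r4, hr4, b, h4⟩ := mem_fex.1 h2 r3 hr3
  refine ⟨r4, hr4, b, fun S => mem_fimp.2 fun r5 hr5 h5 => ?_⟩
  obtain ⟨r6, hr6, h6⟩ := mem_fimp.1 (h4 (Classical.arbitrary I) S) r5 hr5 h5
  refine ⟨r6, hr6, fun r7 hr7 h7 => ?_⟩
  obtain ⟨r8, _, h8⟩ := mem_fimp.1 (h6 b) r7 hr7 h7
  exact absurd h8 (lt_irrefl b)

/-- Sets of size at most `(2 ^ ℵ₀)⁺` have the colouring. -/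
theorem small_case (M : Type) (hM : #M ≤ Order.succ (2 ^ ℵ₀ : Cardinal.{0})) :
    ∃ c : {s : Set M // s.Countable} → (Order.succ (2 ^ ℵ₀ : Cardinal.{0})).ord.ToType,
      ∀ X : Set M, #X = Order.succ (2 ^ (ℵ₀ : Cardinal.{0})) → ∀ a, ∃ s : {s : Set M // s.Countable},
        s.1 ⊆ X ∧ c s = a := by
  classical
  obtain ⟨e⟩ : Nonempty (M ↪ (Order.succ (2 ^ ℵ₀ : Cardinal.{0})).ord.ToType) := by
    rw [← Cardinal.le_def, mk_ord_toType]
    exact hM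
  set K := (Order.succ (2 ^ ℵ₀ : Cardinal.{0})).ord.ToType with hK
  have hC : CoherentClubs (Order.succ (2 ^ (ℵ₀ : Cardinal.{0}))) (fun x : WithTop K => Iio x) := by
    refine ⟨fun δ => Subset.rfl, ?_, fun δ γ hγ _ => hγ, ?_, ?_⟩
    · rintro δ ⟨S, _, hS, hcof⟩ β hβ
      obtain ⟨ξ, hξ, h⟩ := hcof β hβ
      exact ⟨ξ, hS hξ, h⟩
    · intro δ γ hγ
      have hγt : γ < ⊤ := lt_of_lt_of_le hγ le_top
      obtain ⟨x, rfl⟩ := WithTop.ne_top_iff_exists.1 hγt.ne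
      have hsub : (Iio δ ∩ Iio (x : WithTop K) : Set (WithTop K)) ⊆
          (fun y : K => (y : WithTop K)) '' Iio x := by
        rintro z ⟨_, hz⟩
        have hz' : z < (⊤ : WithTop K) := lt_of_lt_of_le hz le_top
        obtain ⟨y, rfl⟩ := WithTop.ne_top_iff_exists.1 hz'.ne
        exact ⟨y, WithTop.coe_lt_coe.1 hz, rfl⟩
      refine (Cardinal.mk_le_mk_of_subset hsub).trans_lt (Cardinal.mk_image_le.trans_lt ?_)
      exact Cardinal.mk_Iio_toType_ord_lt x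
    · intro δ γ hγ _
      ext z
      exact ⟨fun hz => ⟨lt_trans hz hγ, hz⟩, fun hz => hz.2⟩
  obtain ⟨c, hc⟩ := bounded_case _ hC
  let f : M → WithTop K := fun x => (e x : WithTop K)
  have hf : Function.Injective f := fun x y h => e.injective (WithTop.coe_injective h)
  refine ⟨fun s => c (f '' s.1), fun X hX a => ?_⟩
  obtain ⟨s, hs1, hs2, hs3⟩ := hc (f '' X) ⊤ (by
    rintro _ ⟨x, -, rfl⟩
    exact WithTop.coe_lt_top _) (by rw [Cardinal.mk_image_eq hf, hX]) a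
  refine ⟨⟨f ⁻¹' s, hs1.preimage hf⟩, ?_, ?_⟩
  · intro x hx
    obtain ⟨x', hx', h⟩ := hs2 hx
    rwa [← hf h]
  · show c _ = a
    rw [Set.image_preimage_eq_of_subset, hs3]
    intro z hz
    obtain ⟨x', -, h⟩ := hs2 hz
    exact ⟨x', h⟩

/-- The forcing notion of `huge_iteration` forces that colourings of the countable subsets of
`(2 ^ ℵ₀)⁺⁺` are bounded on large sets. -/
theorem bounds_iteration {κ m : Cardinal.{0}} (h : IsHuge κ m) :
    ∃ (P : Type) (_ : Preorder P), Nonempty P ∧ ∀ p : P,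
      p ∈ StaysRegular P ℵ₁ ∧ p ∈ StaysRegular P κ ∧ p ∈ StaysRegular P m ∧
      p ∈ CollapsedTo P ℵ₁ κ ∧ p ∈ CollapsedTo P κ m ∧ p ∈ ForcesCH P ∧
      p ∈ MissesColour P κ.ord.ToType m.ord.ToType ∧
      p ∈ BoundsColours P (ℵ₁ : Cardinal.{0}).ord.ToType κ.ord.ToType m.ord.ToType := by
  classical
  obtain ⟨k, U, π, hs⟩ := IsHuge.hs h
  have hM : ∀ a : m.ord.ToType, #(Set.Iio a) < #m.ord.ToType := by
    intro a
    rw [mk_ord_toType]
    exact Cardinal.mk_Iio_toType_ord_lt a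
  obtain ⟨hreg, hstrong⟩ := hs.target hM
  obtain ⟨cP, hcP, hlt⟩ := hs.exists_cP
  obtain ⟨cS, hcS⟩ := exists_cS (k := k) hreg hstrong hM (by
    rw [hs.mk_k]
    exact hs.reg.aleph0_le)
  obtain ⟨ι⟩ := hs.iso
  have hne : Nonempty (RC m.ord.ToType k cP) := by
    have h0 : ∃ γ, γ < k := by
      have h1 : #(Set.Iio k) ≠ 0 := by
        rw [hs.mk_k]
        exact hs.reg.pos.ne'
      obtain ⟨γ⟩ := Cardinal.mk_ne_zero_iff.1 h1
      exact ⟨γ.1, γ.2⟩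
    refine ⟨⟨⟨fun _ => Sl.empty, ?_, ?_⟩, ⟨Sl.empty, ⟨?_, ?_, ?_, ?_⟩⟩⟩⟩
    · have : {α : m.ord.ToType | (Sl.empty : Sl m.ord.ToType).D.Nonempty} = ∅ := by
        ext α
        simp [Sl.empty]
      rw [this]
      exact Set.countable_empty
    · intro α hα
      exact absurd hα Set.not_nonempty_empty
    · simp [Sl.empty]
    · obtain ⟨γ, hγ⟩ := h0
      exact ⟨γ, hγ, fun t ht => ht.elim⟩
    · exact fun t ht => ht.elim
    · exact fun t s ht => ht.elim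
  have hI : #(ℵ₁ : Cardinal.{0}).ord.ToType < κ := by
    rw [mk_ord_toType]
    exact hs.unc
  have hI0 : Nonempty (ℵ₁ : Cardinal.{0}).ord.ToType := by
    rw [← mk_ne_zero_iff, mk_ord_toType]
    exact (aleph0_pos.trans aleph0_lt_aleph_one).ne'
  have hkey : ∀ G : (ℵ₁ : Cardinal.{0}).ord.ToType →
      Set m.ord.ToType → m.ord.ToType → Set (RC m.ord.ToType k cP), (∀ i s a, Down (G i s a)) →
      (∀ i, ∀ s : Set m.ord.ToType, s.Countable → ∀ r : RC m.ord.ToType k cP,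
        ∃ r' ≤ r, ∃ a, r' ∈ G i s a) →
      ∀ r0 : RC m.ord.ToType k cP, ∃ X : Set m.ord.ToType, Nonempty (κ.ord.ToType ≃o X) ∧
        ∃ r ≤ r0, ∃ α < k, X ∩ Set.Iio k = Set.Iio α ∧
        ∀ i, ∀ s ⊆ X, s.Countable → ∀ r' ≤ r, ∃ r'' ≤ r', ∃ a ∈ X, r'' ∈ G i s a := by
    intro G hd hG r0
    obtain ⟨X, hX, -, h2⟩ := key' hs hcP hlt hcS hI G hd hG _ hs.mono r0
    refine ⟨X, ?_, h2⟩
    obtain ⟨h3, h4⟩ := hX
    have e1 := StrictMonoOn.orderIso (π X) (Set.Iio k) h3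
    rw [h4] at e1
    exact ⟨ι.trans e1⟩
  have hB : ∀ p : RC m.ord.ToType k cP, p ∈ BoundsColours (RC m.ord.ToType k cP)
      (ℵ₁ : Cardinal.{0}).ord.ToType κ.ord.ToType m.ord.ToType := fun p =>
    boundsColours_of_key (RC.dirClosed hs cP) ι hkey p
  refine ⟨RC m.ord.ToType k cP, inferInstance, hne,
    fun p => ⟨?_, ?_, ?_, ?_, ?_, ?_, missesColour_of_bounds (hB p), hB p⟩⟩
  · exact staysRegular_proj isRegular_aleph_one
      (fun N D hN hd hdense q =>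
        exists_forall_mem aleph0_lt_aleph_one.le (RC.dirClosed hs cP) hN D hd hdense q)
      id (fun a b h => h) (fun a q' h => ⟨q', h, le_rfl⟩) (fun q' => ⟨q', le_rfl⟩) p
  · refine staysRegular_of_key hs.reg hs.mk_k hs.mk_lt ι ?_ p
    intro G hd hG A hA r0
    have hZ : {X : Set m.ord.ToType | A ⊆ X} ∈ U := by
      have h1 := hs.comp A hA (fun a => {X | a.1 ∈ X}) (fun a => hs.fine a.1)
      filter_upwards [h1] with X hX a ha
      exact hX ⟨a, ha⟩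
    obtain ⟨X, h1, h2⟩ := hs.key hcP hlt hcS G hd hG _ hZ r0
    exact ⟨X, h1, h2⟩
  · refine staysRegular_of_cc' ?_ ?_ p
    · rw [mk_ord_toType] at hreg
      exact hreg
    · intro ι' f hf
      exact RC.cc hs hM hcP hlt hcS ι' f (by rw [mk_ord_toType]; exact hf)
  · exact RC.collapsed hs cP p
  · have h1 := RC.collapsed' hs hM cP hlt p
    rw [mk_ord_toType] at h1
    exact h1
  · exact RC.forcesCH hs cP p

end Pool.Agent.Y582.HC
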